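import Pool.Agent.Q134.MedX
import Pool.Agent.Q134.MedCox

/-!
# A monolith that is not a convex subgraph of a product of complete graphs and Coxeter graphs

The graph `X` of the 32 chambers of the simplicial arrangement `A(7,1)` is mediangle and is a
monolith of itself, but it is not isomorphic to a convex subgraph of a Cartesian product of
complete graphs and Cayley graphs of Coxeter groups.
-/

set_option autoImplicit false

namespace Pool.Agent.Results.MP_b747c0_co.NotProduct

open Q134.Med

universe u v w x

section embed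

variable {ι : Type u} {U : ι → Type v} {G : ∀ i, SimpleGraph (U i)} {S : Set (∀ i, U i)}

/-- A common neighbour of two non-adjacent vertices of a convex set belongs to the set. -/
lemma mem_of_common (hS : IsConvex (cartProd G) S) {p q y : ∀ i, U i} (hp : p ∈ S) (hq : q ∈ S)
    (hpq : p ≠ q) (hn : ¬ (cartProd G).Adj p q) (h1 : (cartProd G).Adj p y)
    (h2 : (cartProd G).Adj y q) : y ∈ S := by
  apply hS p hp q hq y
  refine ⟨h1.reachable, h2.reachable, ?_⟩
  have e1 : (cartProd G).dist p y = 1 := SimpleGraph.dist_eq_one_iff_adj.mpr h1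
  have e2 : (cartProd G).dist y q = 1 := SimpleGraph.dist_eq_one_iff_adj.mpr h2
  have hr : (cartProd G).Reachable p q := h1.reachable.trans h2.reachable
  have e3 : (cartProd G).dist p q ≤ 2 :=
    SimpleGraph.dist_le (SimpleGraph.Walk.cons h1 (SimpleGraph.Walk.cons h2 SimpleGraph.Walk.nil))
  have e4 : (cartProd G).dist p q ≠ 0 := by
    intro h0
    exact hpq (hr.dist_eq_zero_iff.mp h0)
  have e5 : (cartProd G).dist p q ≠ 1 := by
    intro h0
    exact hn (SimpleGraph.dist_eq_one_iff_adj.mp h0)
  omega

variable (f : Fin 32 → ∀ i, U i)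

/-- `f a` and `f b` are adjacent in the product, via the coordinate `i`. -/
def D (G : ∀ i, SimpleGraph (U i)) (f : Fin 32 → ∀ i, U i) (a b : Fin 32) (i : ι) : Prop :=
  (G i).Adj (f a i) (f b i) ∧ ∀ j, j ≠ i → f a j = f b j

variable {f}

lemma D.symm {a b : Fin 32} {i : ι} (h : D G f a b i) : D G f b a i :=
  ⟨h.1.symm, fun j hj => (h.2 j hj).symm⟩

lemma D.adj {a b : Fin 32} {i : ι} (h : D G f a b i) : (cartProd G).Adj (f a) (f b) :=
  ⟨i, h.1, h.2⟩

end embed

theorem not_embeddable {ι : Type u} {U : ι → Type v} (G : ∀ i, SimpleGraph (U i))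
    (hG : ∀ i, IsCompleteOrCoxeter.{v, w, x} (G i)) (S : Set (∀ i, U i))
    (hS : IsConvex (cartProd G) S) (f : Fin 32 → ∀ i, U i) (hfS : Set.range f = S)
    (hinj : Function.Injective f) (hadj : ∀ a b, (cartProd G).Adj (f a) (f b) ↔ X.Adj a b) :
    False := by
  classical
  have hmem : ∀ a, f a ∈ S := fun a => hfS ▸ ⟨a, rfl⟩
  -- a common neighbour in the product comes from `X`
  have hcom : ∀ a b o : Fin 32, a ≠ b → ¬ X.Adj a b → (∀ w, X.Adj a w → X.Adj b w → w = o) →
      ∀ y, (cartProd G).Adj (f a) y → (cartProd G).Adj y (f b) → y = f o := by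
    intro a b o hab hn hu y h1 h2
    have hy : y ∈ S := mem_of_common hS (hmem a) (hmem b) (fun h => hab (hinj h))
      (fun h => hn ((hadj a b).mp h)) h1 h2
    rw [← hfS] at hy
    obtain ⟨w, rfl⟩ := hy
    rw [hu w ((hadj _ _).mp h1) ((hadj _ _).mp h2).symm]
  -- two edges at `o` whose ends have no other common neighbour use the same coordinate
  have same : ∀ o a b : Fin 32, X.Adj o a → X.Adj o b → a ≠ b → ¬ X.Adj a b →
      (∀ w, X.Adj a w → X.Adj b w → w = o) → ∀ i, D G f o a i → D G f o b i := by
    intro o a b hoa hob hab hn hu i hi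
    obtain ⟨j, hj, hj'⟩ := (hadj o b).mpr hob
    by_cases hij : i = j
    · subst hij
      exact ⟨hj, hj'⟩
    · exfalso
      -- the fourth vertex of the square
      set y : ∀ i, U i := Function.update (f a) j (f b j) with hy
      have hyj : y j = f b j := by simp [hy]
      have hyn : ∀ l, l ≠ j → y l = f a l := fun l hl => by simp [hy, hl]
      have h1 : (cartProd G).Adj (f a) y := by
        refine ⟨j, ?_, fun l hl => (hyn l hl).symm⟩
        rw [hyj, ← hi.2 j (fun h => hij h.symm)]
        exact hj
      have h2 : (cartProd G).Adj y (f b) := by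
        refine ⟨i, ?_, fun l hl => ?_⟩
        · rw [hyn i hij, ← hj' i hij]
          exact hi.1.symm
        · by_cases hlj : l = j
          · subst hlj
            exact hyj
          · rw [hyn l hlj, ← hi.2 l hl, hj' l hlj]
      have h3 := hcom a b o hab hn hu y h1 h2
      have h4 : f b j = f o j := by rw [← hyj, h3]
      rw [h4] at hj
      exact (G j).irrefl hj
  have adj' : ∀ a b : Fin 32, X.Adj a b → ∃ i, D G f a b i := fun a b h => (hadj a b).mpr h
  -- the coordinate of the edge `0 - 1`
  obtain ⟨i, d01⟩ := adj' 0 1 (by decide +kernel)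
  have d04 : D G f 0 4 i := same 0 1 4 (by decide +kernel) (by decide +kernel) (by decide)
    (by decide +kernel) (by decide +kernel) i d01
  have d08 : D G f 0 8 i := same 0 1 8 (by decide +kernel) (by decide +kernel) (by decide)
    (by decide +kernel) (by decide +kernel) i d01
  have d45 : D G f 4 5 i := same 4 0 5 (by decide +kernel) (by decide +kernel) (by decide)
    (by decide +kernel) (by decide +kernel) i d04.symm
  have d56 : D G f 5 6 i := same 5 4 6 (by decide +kernel) (by decide +kernel) (by decide)
    (by decide +kernel) (by decide +kernel) i d45.symm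
  have d12 : D G f 1 2 i := same 1 0 2 (by decide +kernel) (by decide +kernel) (by decide)
    (by decide +kernel) (by decide +kernel) i d01.symm
  have d26 : D G f 2 6 i := same 2 1 6 (by decide +kernel) (by decide +kernel) (by decide)
    (by decide +kernel) (by decide +kernel) i d12.symm
  have d813 : D G f 8 13 i := same 8 0 13 (by decide +kernel) (by decide +kernel) (by decide)
    (by decide +kernel) (by decide +kernel) i d08.symm
  have d1314 : D G f 13 14 i := same 13 8 14 (by decide +kernel) (by decide +kernel) (by decide)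
    (by decide +kernel) (by decide +kernel) i d813.symm
  have d110 : D G f 1 10 i := same 1 0 10 (by decide +kernel) (by decide +kernel) (by decide)
    (by decide +kernel) (by decide +kernel) i d01.symm
  have d1014 : D G f 10 14 i := same 10 1 14 (by decide +kernel) (by decide +kernel) (by decide)
    (by decide +kernel) (by decide +kernel) i d110.symm
  -- the square `0, 4, 9, 8` uses only the coordinate `i`
  have d49 : D G f 4 9 i ∧ D G f 8 9 i := by
    obtain ⟨j, hj, hj'⟩ := adj' 4 9 (by decide +kernel)
    obtain ⟨l, hl, hl'⟩ := adj' 8 9 (by decide +kernel)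
    have h48 : f 4 ≠ f 8 := fun h => absurd (hinj h) (by decide)
    have h48i : f 4 i ≠ f 8 i := by
      intro h
      apply h48
      funext m
      by_cases hm : m = i
      · rw [hm, h]
      · rw [← d04.2 m hm, ← d08.2 m hm]
    have hji : j = i := by
      by_contra hji
      have hji' : f 4 j = f 8 j := by rw [← d04.2 j hji, ← d08.2 j hji]
      have hlj : l = j := by
        by_contra hlj
        have h1 := hl' j (fun h => hlj h.symm)
        rw [hji', h1] at hj
        exact (G j).irrefl hj
      subst hlj
      apply h48i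
      rw [hj' i (fun h => hji h.symm), hl' i (fun h => hji h.symm)]
    subst hji
    have hlj : l = j := by
      by_contra hlj
      have h1 : f 4 l = f 8 l := by rw [← d04.2 l hlj, ← d08.2 l hlj]
      have h2 := hj' l hlj
      rw [← h1, h2] at hl
      exact (G l).irrefl hl
    subst hlj
    exact ⟨⟨hj, hj'⟩, ⟨hl, hl'⟩⟩
  obtain ⟨d49, d89⟩ := d49
  -- vertices that agree outside the coordinate `i`
  have out : ∀ a b : Fin 32, (∀ j, j ≠ i → f a j = f b j) → a ≠ b → f a i ≠ f b i := by
    intro a b h hab h1
    apply hab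
    apply hinj
    funext j
    by_cases hj : j = i
    · rw [hj, h1]
    · exact h j hj
  have o41 : ∀ j, j ≠ i → f 4 j = f 1 j := fun j hj => by rw [← d04.2 j hj, d01.2 j hj]
  have o81 : ∀ j, j ≠ i → f 8 j = f 1 j := fun j hj => by rw [← d08.2 j hj, d01.2 j hj]
  have o48 : ∀ j, j ≠ i → f 4 j = f 8 j := fun j hj => by rw [← d04.2 j hj, d08.2 j hj]
  have o06 : ∀ j, j ≠ i → f 0 j = f 6 j := fun j hj => by
    rw [d04.2 j hj, d45.2 j hj, d56.2 j hj]
  have o014 : ∀ j, j ≠ i → f 0 j = f 14 j := fun j hj => by
    rw [d08.2 j hj, d813.2 j hj, d1314.2 j hj]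
  have o09 : ∀ j, j ≠ i → f 0 j = f 9 j := fun j hj => by
    rw [d04.2 j hj, d49.2 j hj]
  have o210 : ∀ j, j ≠ i → f 2 j = f 10 j := fun j hj => by
    rw [← d12.2 j hj, d110.2 j hj]
  rcases hG i with hT | ⟨B, W, _, M, cs, ⟨e⟩⟩
  · -- the factor is not complete
    have h1 : (G i).Adj (f 4 i) (f 1 i) := by
      rw [hT]
      exact out 4 1 o41 (by decide)
    exact absurd ((hadj 4 1).mp ⟨i, h1, o41⟩) (by decide +kernel)
  · -- the factor is a Coxeter graph
    set g : Fin 32 → W := fun a => e (f a i) with hg
    have step : ∀ a b, D G f a b i → ∃ s : B, g b = g a * cs.simple s := fun a b h =>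
      e.map_adj_iff.mpr h.1
    have gne : ∀ a b, (∀ j, j ≠ i → f a j = f b j) → a ≠ b → g a ≠ g b := fun a b h hab h1 =>
      out a b h hab (e.injective h1)
    obtain ⟨sc, hsc⟩ := step 0 1 d01
    obtain ⟨sa, hsa⟩ := step 0 4 d04
    obtain ⟨sb, hsb⟩ := step 0 8 d08
    obtain ⟨s1, hs1⟩ := step 4 5 d45
    obtain ⟨s2, hs2⟩ := step 5 6 d56
    obtain ⟨s3, hs3⟩ := step 1 2 d12
    obtain ⟨s4, hs4⟩ := step 2 6 d26
    obtain ⟨t1, ht1⟩ := step 8 13 d813
    obtain ⟨t2, ht2⟩ := step 13 14 d1314
    obtain ⟨t3, ht3⟩ := step 1 10 d110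
    obtain ⟨t4, ht4⟩ := step 10 14 d1014
    obtain ⟨q1, hq1⟩ := step 4 9 d49
    obtain ⟨q2, hq2⟩ := step 8 9 d89
    have hac : cs.simple sa ≠ cs.simple sc := fun h => gne 4 1 o41 (by decide) (by rw [hsa, hsc, h])
    have hbc : cs.simple sb ≠ cs.simple sc := fun h => gne 8 1 o81 (by decide) (by rw [hsb, hsc, h])
    have hab : cs.simple sa ≠ cs.simple sb := fun h => gne 4 8 o48 (by decide) (by rw [hsa, hsb, h])
    -- a product of two generators gives a common neighbour
    have corner : ∀ (a b o : Fin 32) (s t : B), a ≠ b → ¬ X.Adj a b →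
        (∀ w, X.Adj a w → X.Adj b w → w = o) → D G f o a i → D G f o b i →
        g a = g o * cs.simple s → g b = g o * cs.simple t →
        cs.simple s * cs.simple t = cs.simple t * cs.simple s → False := by
      intro a b o s t hne hn hu doa dob hga hgb hcomm
      set z : U i := e.symm (g o * (cs.simple s * cs.simple t)) with hz
      have hez : e z = g o * (cs.simple s * cs.simple t) := by simp [hz]
      set y : ∀ i, U i := Function.update (f a) i z with hy
      have hyi : y i = z := by simp [hy]
      have hyn : ∀ l, l ≠ i → y l = f a l := fun l hl => by simp [hy, hl]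
      have h1 : (cartProd G).Adj (f a) y := by
        refine ⟨i, ?_, fun l hl => (hyn l hl).symm⟩
        rw [hyi]
        apply e.map_adj_iff.mp
        refine ⟨t, ?_⟩
        rw [hez]
        show _ = g a * _
        rw [hga, mul_assoc]
      have h2 : (cartProd G).Adj y (f b) := by
        refine SimpleGraph.Adj.symm ⟨i, ?_, fun l hl => ?_⟩
        · rw [hyi]
          apply e.map_adj_iff.mp
          refine ⟨s, ?_⟩
          rw [hez, hcomm]
          show _ = g b * _
          rw [hgb, mul_assoc]
        · rw [hyn l hl, ← doa.2 l hl, dob.2 l hl]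
      have h3 := hcom a b o hne hn hu y h1 h2
      have h4 : e z = g o := by
        show _ = e (f o i)
        rw [← h3, hyi]
      rw [hez] at h4
      have h5 : cs.simple s * cs.simple t = 1 := by
        have : g o * (cs.simple s * cs.simple t) = g o * 1 := by rw [h4, mul_one]
        exact mul_left_cancel this
      have h6 := mul_eq_one_iff_eq_inv.mp h5
      rw [cs.inv_simple] at h6
      have h7 : g a = g b := by rw [hga, hgb, h6]
      have h8 : ∀ j, j ≠ i → f a j = f b j := fun j hj => by rw [← doa.2 j hj, dob.2 j hj]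
      exact gne a b h8 hne h7
    have cac : cs.simple sa * cs.simple sc ≠ cs.simple sc * cs.simple sa := fun h =>
      corner 4 1 0 sa sc (by decide) (by decide +kernel) (by decide +kernel) d04 d01 hsa hsc h
    have cbc : cs.simple sb * cs.simple sc ≠ cs.simple sc * cs.simple sb := fun h =>
      corner 8 1 0 sb sc (by decide) (by decide +kernel) (by decide +kernel) d08 d01 hsb hsc h
    -- the first hexagon
    have e1 : cs.simple sa * cs.simple s1 * cs.simple s2 =
        cs.simple sc * cs.simple s3 * cs.simple s4 := by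
      have h1 : g 6 = g 0 * (cs.simple sa * cs.simple s1 * cs.simple s2) := by
        rw [hs2, hs1, hsa]; simp only [mul_assoc]
      have h2 : g 6 = g 0 * (cs.simple sc * cs.simple s3 * cs.simple s4) := by
        rw [hs4, hs3, hsc]; simp only [mul_assoc]
      exact mul_left_cancel (h1.symm.trans h2)
    have n1 : ∀ r : B, cs.simple sa * cs.simple s1 * cs.simple s2 ≠ cs.simple r := by
      intro r hr
      have h1 : g 6 = g 0 * cs.simple r := by
        rw [hs2, hs1, hsa, ← hr]; simp only [mul_assoc]
      have h2 : (G i).Adj (f 0 i) (f 6 i) := e.map_adj_iff.mp ⟨r, h1⟩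
      exact absurd ((hadj 0 6).mp ⟨i, h2, o06⟩) (by decide +kernel)
    obtain ⟨_, h3a⟩ := cox_three cs e1 hac cac n1
    -- the second hexagon
    have e2 : cs.simple sb * cs.simple t1 * cs.simple t2 =
        cs.simple sc * cs.simple t3 * cs.simple t4 := by
      have h1 : g 14 = g 0 * (cs.simple sb * cs.simple t1 * cs.simple t2) := by
        rw [ht2, ht1, hsb]; simp only [mul_assoc]
      have h2 : g 14 = g 0 * (cs.simple sc * cs.simple t3 * cs.simple t4) := by
        rw [ht4, ht3, hsc]; simp only [mul_assoc]
      exact mul_left_cancel (h1.symm.trans h2)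
    have n2 : ∀ r : B, cs.simple sb * cs.simple t1 * cs.simple t2 ≠ cs.simple r := by
      intro r hr
      have h1 : g 14 = g 0 * cs.simple r := by
        rw [ht2, ht1, hsb, ← hr]; simp only [mul_assoc]
      have h2 : (G i).Adj (f 0 i) (f 14 i) := e.map_adj_iff.mp ⟨r, h1⟩
      exact absurd ((hadj 0 14).mp ⟨i, h2, o014⟩) (by decide +kernel)
    obtain ⟨_, h3b⟩ := cox_three cs e2 hbc cbc n2
    -- the square
    have e3 : cs.simple sa * cs.simple q1 = cs.simple sb * cs.simple q2 := by
      have h1 : g 9 = g 0 * (cs.simple sa * cs.simple q1) := by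
        rw [hq1, hsa, mul_assoc]
      have h2 : g 9 = g 0 * (cs.simple sb * cs.simple q2) := by
        rw [hq2, hsb, mul_assoc]
      exact mul_left_cancel (h1.symm.trans h2)
    have n3 : cs.simple sa * cs.simple q1 ≠ 1 := by
      intro h
      apply gne 0 9 o09 (by decide)
      rw [hq1, hsa, mul_assoc, h, mul_one]
    obtain ⟨h4a, h4b⟩ := cox_two cs e3 hab n3
    rw [h4a, h4b] at e3
    -- contradiction at the vertex `1`
    exact corner 2 10 1 sa sb (by decide) (by decide +kernel) (by decide +kernel) d12 d110
      (by rw [hs3, h3a]) (by rw [ht3, h3b]) e3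

/-- **Q1 is false.** There is a mediangle graph `X` (with 32 vertices) which is a monolith of
itself, but is not isomorphic to a convex subgraph of a Cartesian product of complete graphs and
Cayley graphs of Coxeter groups. -/
theorem result : ∃ X : SimpleGraph (Fin 32), IsMediangle X ∧ IsMonolith X Set.univ ∧
    ∀ (ι : Type u) (U : ι → Type v) (G : ∀ i, SimpleGraph (U i)),
      (∀ i, IsCompleteOrCoxeter.{v, w, x} (G i)) →
      ∀ S : Set (∀ i, U i), IsConvex (cartProd G) S →
        IsEmpty (X ≃g (cartProd G).induce S) := by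
  refine ⟨X, X_mediangle, X_monolith, ?_⟩
  intro ι U G hG S hS
  refine ⟨fun φ => ?_⟩
  refine not_embeddable G hG S hS (fun a => (φ a : ∀ i, U i)) ?_ ?_ ?_
  · ext y
    constructor
    · rintro ⟨a, rfl⟩
      exact (φ a).2
    · intro hy
      obtain ⟨a, hay⟩ := φ.surjective ⟨y, hy⟩
      exact ⟨a, congrArg Subtype.val hay⟩
  · intro a b h
    exact φ.injective (Subtype.ext h)
  · intro a b
    exact φ.map_adj_iff (v := a) (w := b)

end Pool.Agent.Results.MP_b747c0_co.NotProduct
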